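import Pool.Agent.Helper18.PB.Defs

/-!
# Packet A6 (GP): choice of the parameters
-/

set_option autoImplicit false

namespace Pool.Agent.Helper98.PB

open Pool.Agent.Helper18.PB

/-- a positive sequence with `r (c+1) ≤ K q^(c+1) r c`, `q < 1`, is bounded -/
theorem bdd_of_ratio (r : ℕ → ℝ) (K q : ℝ) (hr : ∀ c, 0 < r c) (hK : 0 < K) (hq0 : 0 < q)
    (hq : q < 1) (h : ∀ c, r (c + 1) ≤ K * q ^ (c + 1) * r c) :
    ∃ S : ℝ, 0 < S ∧ ∀ c, r c ≤ S := by
  obtain ⟨c0, hc0⟩ : ∃ c0 : ℕ, q ^ c0 < 1 / K :=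
    exists_pow_lt_of_lt_one (by positivity) hq
  have hK' : ∀ c, c0 ≤ c → K * q ^ (c + 1) ≤ 1 := by
    intro c hc
    have h1 : q ^ (c + 1) ≤ q ^ c0 := pow_le_pow_of_le_one hq0.le hq.le (by omega)
    have h2 : K * q ^ (c + 1) ≤ K * (1 / K) := by
      apply mul_le_mul_of_nonneg_left (h1.trans hc0.le) hK.le
    rwa [mul_one_div_cancel hK.ne'] at h2
  refine ⟨∑ c ∈ Finset.range (c0 + 1), r c, ?_, ?_⟩
  · exact Finset.sum_pos (fun c _ => hr c) ⟨0, by simp⟩
  · have hle : ∀ c, c ≤ c0 → r c ≤ ∑ c ∈ Finset.range (c0 + 1), r c := by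
      intro c hc
      exact Finset.single_le_sum (f := r) (fun i _ => (hr i).le)
        (Finset.mem_range.2 (by omega))
    intro c
    rcases le_total c c0 with hc | hc
    · exact hle c hc
    · obtain ⟨k, rfl⟩ := Nat.exists_eq_add_of_le hc
      clear hc
      induction k with
      | zero => exact hle _ (by omega)
      | succ k ih =>
        refine le_trans (h (c0 + k)) (le_trans ?_ ih)
        have := hK' (c0 + k) (by omega)
        calc K * q ^ (c0 + k + 1) * r (c0 + k) ≤ 1 * r (c0 + k) :=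
              mul_le_mul_of_nonneg_right this (hr _).le
          _ = r (c0 + k) := one_mul _

theorem a6 : GP := by
  intro M s hs
  -- the choice of `A`
  obtain ⟨A, hA1, hA2⟩ : ∃ A : ℕ, 8 * M + 10 ≤ A ∧ (M : ℝ) * s < A * (s - 2 - 2 * M) := by
    obtain ⟨n, hn⟩ := exists_nat_gt ((M : ℝ) * s / (s - 2 - 2 * M))
    have hpos : 0 < s - 2 - 2 * (M : ℝ) := by linarith
    refine ⟨max n (8 * M + 10), le_max_right _ _, ?_⟩
    have h1 : (M : ℝ) * s / (s - 2 - 2 * M) < (max n (8 * M + 10) : ℕ) := by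
      refine lt_of_lt_of_le hn ?_
      exact_mod_cast le_max_left _ _
    rwa [div_lt_iff₀ hpos] at h1
  have hs1 : 0 < s - 1 := by
    have : (0 : ℝ) ≤ M := Nat.cast_nonneg M
    linarith
  set N : ℕ → ℕ := fun c => 2 ^ (A * (c + 1)) with hN
  set σ : ℕ → ℝ := fun c => (1 / 2 : ℝ) ^ (c + 1) with hσ
  have hNpos : ∀ c, 1 ≤ N c := fun c => Nat.one_le_two_pow
  have hNcast : ∀ c, (N c : ℝ) = 2 ^ (A * (c + 1)) := fun c => by simp [hN]
  have hNr : ∀ c, (0 : ℝ) < N c := fun c => by rw [hNcast]; positivity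
  have hσpos : ∀ c, 0 < σ c := fun c => by simp only [hσ]; positivity
  -- the factor
  have hfac : ∀ c, (N c : ℝ) * σ c ^ M = 2 ^ ((A - M) * (c + 1)) := by
    intro c
    rw [hNcast]
    simp only [hσ]
    have h1 : A * (c + 1) = (A - M) * (c + 1) + (c + 1) * M := by
      have : A = (A - M) + M := by omega
      nth_rewrite 1 [this]; ring
    rw [h1, pow_add, ← pow_mul, mul_assoc, ← mul_pow]
    norm_num
  have hPpos : ∀ c, 0 < PiP M N σ c := by
    intro c
    unfold PiP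
    apply Finset.prod_pos
    intro l _
    rw [hfac]
    positivity
  have hTpos : ∀ c, 0 < ThP M N σ c := by
    intro c
    unfold ThP
    apply Finset.prod_pos
    intro l _
    have := hNr l
    have := hσpos l
    positivity
  have hPs : ∀ c, PiP M N σ (c + 1) = PiP M N σ c * (192 * 54 ^ M / 2 ^ ((A - M) * (c + 1))) := by
    intro c
    unfold PiP
    rw [Finset.prod_range_succ, hfac]
  have hTs : ∀ c, ThP M N σ (c + 1)
      = ThP M N σ c * (1 / (32 * N c) * (σ c / (9 * (N c : ℝ) ^ 2)) ^ M) := by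
    intro c
    unfold ThP
    rw [Finset.prod_range_succ]
  have hσs : ∀ c, σ (c + 1) ^ (M + 1) = σ c ^ (M + 1) * (1 / 2) ^ (M + 1) := by
    intro c
    simp only [hσ]
    rw [← mul_pow, ← pow_succ]
  set u : ℕ → ℝ := fun c => PiP M N σ c / σ c ^ (M + 1) with hu
  have hupos : ∀ c, 0 < u c := fun c => div_pos (hPpos c) (pow_pos (hσpos c) _)
  have hus : ∀ c, u (c + 1) = u c * (192 * 54 ^ M * 2 ^ (M + 1) / 2 ^ ((A - M) * (c + 1))) := by
    intro c
    simp only [hu]
    rw [hPs, hσs]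
    have h1 : ((1 : ℝ) / 2) ^ (M + 1) = 1 / 2 ^ (M + 1) := by
      rw [one_div_pow]
    rw [h1]
    have h2 := (pow_pos (hσpos c) (M + 1)).ne'
    field_simp
  refine ⟨N, σ, ?_⟩
  -- second inequality
  set r : ℕ → ℝ := fun c => u c ^ (s - 1) / ThP M N σ (c + 1) with hr
  have hrpos : ∀ c, 0 < r c := fun c => div_pos (Real.rpow_pos_of_pos (hupos c) _) (hTpos _)
  set d : ℝ := ((A : ℝ) - M) * (s - 1) - (A * (2 * M + 1) + M) with hd
  have hdpos : 0 < d := by
    rw [hd]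
    nlinarith
  set K : ℝ := (192 * 54 ^ M * 2 ^ (M + 1) : ℝ) ^ (s - 1) * (32 * 9 ^ M * 2 ^ (A + M + 2 * A * M))
    with hK
  have hKpos : 0 < K := by positivity
  set q : ℝ := (2 : ℝ) ^ (-d) with hq
  have hqpos : 0 < q := by positivity
  have hq1 : q < 1 := by
    rw [hq]
    apply Real.rpow_lt_one_of_one_lt_of_neg (by norm_num) (by linarith)
  have hratio : ∀ c, r (c + 1) ≤ K * q ^ (c + 1) * r c := by
    intro c
    apply le_of_eq
    simp only [hr]
    rw [hus, Real.mul_rpow (hupos c).le (by positivity),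
      Real.div_rpow (x := 192 * 54 ^ M * 2 ^ (M + 1)) (y := 2 ^ ((A - M) * (c + 1)))
        (by positivity) (by positivity), hTs (c + 1)]
    have h1 : ((2 : ℝ) ^ ((A - M) * (c + 1))) ^ (s - 1)
        = 2 ^ (((A : ℝ) - M) * (s - 1) * (c + 1)) := by
      rw [← Real.rpow_natCast, ← Real.rpow_mul (by norm_num)]
      congr 1
      push_cast [Nat.cast_sub (show M ≤ A by omega)]
      ring
    have h2 : q ^ (c + 1) = 2 ^ (-d * (c + 1)) := by
      rw [hq, ← Real.rpow_natCast, ← Real.rpow_mul (by norm_num)]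
      push_cast
      ring_nf
    have h3 : (1 / (32 * (N (c + 1) : ℝ)) * (σ (c + 1) / (9 * (N (c + 1) : ℝ) ^ 2)) ^ M)
        = 1 / (32 * 9 ^ M * 2 ^ ((A + M + 2 * A * M) * (c + 2))) := by
      rw [hNcast]
      simp only [hσ]
      rw [div_pow, mul_pow, ← pow_mul, ← pow_mul, ← pow_mul, one_div_pow]
      have e1 : (A + M + 2 * A * M) * (c + 2) = A * (c + 1 + 1) + (c + 1 + 1) * M
          + A * (c + 1 + 1) * (2 * M) := by ring
      rw [e1, pow_add, pow_add]
      field_simp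
    have h4 : ((2 : ℝ) ^ ((A + M + 2 * A * M) * (c + 2)))
        = 2 ^ (A + M + 2 * A * M) * 2 ^ (((A : ℝ) * (2 * M + 1) + M) * (c + 1)) := by
      rw [← Real.rpow_natCast, ← Real.rpow_natCast, ← Real.rpow_add (by norm_num)]
      congr 1
      push_cast
      ring
    rw [h1, h2, h3, h4, hK]
    have h5 : (2 : ℝ) ^ (-d * (c + 1)) = 2 ^ (((A : ℝ) * (2 * M + 1) + M) * (c + 1))
        / 2 ^ (((A : ℝ) - M) * (s - 1) * (c + 1)) := by
      rw [← Real.rpow_sub (by norm_num)]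
      congr 1
      rw [hd]
      ring
    rw [h5]
    have h6 := (hTpos (c + 1)).ne'
    have h7 : (2 : ℝ) ^ (((A : ℝ) - M) * (s - 1) * (c + 1)) ≠ 0 := by positivity
    have h8 : (2 : ℝ) ^ (((A : ℝ) * (2 * M + 1) + M) * (c + 1)) ≠ 0 := by positivity
    field_simp
  obtain ⟨S, hS, hSr⟩ := bdd_of_ratio r K q hrpos hKpos hqpos hq1 hratio
  refine ⟨S, hNpos, ?_, ?_, hS, ?_, ?_⟩
  · intro c
    refine ⟨hσpos c, ?_⟩
    simp only [hσ]
    exact pow_le_one₀ (by norm_num) (by norm_num)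
  · have : Summable fun c : ℕ => (1 / 2 : ℝ) ^ c := summable_geometric_two
    exact (summable_nat_add_iff 1).2 this
  · intro c
    change u (c + 1) ≤ 1 / 2 * u c
    rw [hus, mul_comm]
    apply mul_le_mul_of_nonneg_right _ (hupos c).le
    rw [div_le_iff₀ (by positivity)]
    have h1 : (2 : ℝ) ^ (A - M) ≤ 2 ^ ((A - M) * (c + 1)) := by
      apply pow_le_pow_right₀ (by norm_num)
      exact Nat.le_mul_of_pos_right _ (by omega)
    have h2 : (2 : ℝ) ^ (7 * M + 10) ≤ 2 ^ (A - M) := by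
      apply pow_le_pow_right₀ (by norm_num)
      omega
    have h3 : (192 * 54 ^ M * 2 ^ (M + 1) : ℝ) ≤ 2 ^ 8 * 2 ^ (6 * M) * 2 ^ (M + 1) := by
      have : (54 : ℝ) ^ M ≤ 2 ^ (6 * M) := by
        rw [pow_mul]
        exact pow_le_pow_left₀ (by norm_num) (by norm_num) M
      gcongr
      norm_num
    have h4 : (2 : ℝ) ^ 8 * 2 ^ (6 * M) * 2 ^ (M + 1) * 2 = 2 ^ (7 * M + 10) := by ring
    linarith
  · intro c
    have := hSr c
    simp only [hr] at this
    rwa [div_le_iff₀ (hTpos _)] at this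

end Pool.Agent.Helper98.PB
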